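import Pool.Agent.VMX.StmtsF

set_option autoImplicit false

/-! Row SUA of the squad VMX: the eigenvectors in the limit cone span a core point. -/

open Matrix Filter Topology

namespace Pool.Agent.VMX.H43

open Pool.Agent.PFS Pool.Agent.PFJ Pool.Agent.NBT Pool.Agent.VMX

variable {n : ℕ} {C : Set (V n)} {Γ : Subgroup (GL (Fin n) ℝ)}

theorem eg_pos (h : CC C Γ) {g : GL (Fin n) ℝ} (hg : g ∈ Γ) {s : ℝ} (hs : 0 < s) {lam : ℝ}
    {v : V n} (hv : Eg C Γ g s lam v) : 0 < lam := by
  obtain ⟨h1, h2⟩ := hv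
  have hcl := h.hul.lamCl v h1
  have hne := h.hul.lamNe v h1
  have h3 : s • act g v ∈ closure C := (h.sact_cl_iff hg hs).2 hcl
  rw [h2] at h3
  by_contra hle
  have hle' : lam ≤ 0 := not_lt.1 hle
  have h4 : (-lam) • v ∈ closure C := h.cl_smul hcl (by linarith)
  have h5 : (-lam) • v = 0 := h.salient _ h4 (by rw [neg_smul, neg_neg]; exact h3)
  rcases smul_eq_zero.1 h5 with h6 | h6
  · have h7 : lam = 0 := by linarith
    rw [h7, zero_smul] at h2
    rcases smul_eq_zero.1 h2 with h8 | h8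
    · exact hs.ne' h8
    · exact hne (CC.act_injective g (h8.trans (CC.act_zero g).symm))
  · exact hne h6

theorem eg_fin (h : CC C Γ) (g : GL (Fin n) ℝ) (s : ℝ) :
    {lam : ℝ | ∃ v, Eg C Γ g s lam v}.Finite := by
  refine Set.Finite.subset (Module.End.finite_hasEigenvalue (sA s g)) ?_
  rintro lam ⟨v, h1, h2⟩
  exact Module.End.hasEigenvalue_of_hasEigenvector
    ⟨Module.End.mem_eigenspace_iff.2 h2, h.hul.lamNe v h1⟩

/-- translate of `Eg` by a commuting element -/
theorem eg_comm (h : CC C Γ) {g γ : GL (Fin n) ℝ} (hγ : γ ∈ Γ) (hc : γ * g = g * γ)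
    {s lam t : ℝ} (ht : 0 < t) {v : V n} (hv : Eg C Γ g s lam v) :
    Eg C Γ g s lam (t • act γ v) := by
  obtain ⟨h1, h2⟩ := hv
  refine ⟨h.hul.lamSmul _ (h.hul.lamAct _ h1 γ hγ) t ht, ?_⟩
  rw [CC.act_smul, ← CC.act_mul, ← hc, CC.act_mul, smul_comm s t, ← CC.act_smul, h2, CC.act_smul,
    smul_comm]

/-- monotonicity in the constant -/
theorem mono_c (h : PCone C) {x z : V n} (hx : x ∈ closure C) {M N : ℝ} (hMN : M ≤ N)
    (hz : M • x - z ∈ closure C) : N • x - z ∈ closure C := by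
  have e : N • x - z = (N - M) • x + (M • x - z) := by
    rw [sub_smul]
    abel
  rw [e]
  exact h.cl_add (h.cl_smul hx (by linarith)) hz

theorem sum_hull (h : CC C Γ) {m : ℕ} (q : Fin m → V n) (hq : ∀ i, q i ∈ Hull C Γ) {y : V n}
    (hy : y ∈ Hull C Γ) {c : ℝ} (hc : 0 < c) (S : Finset (Fin m)) :
    c • ∑ i ∈ S, q i + y ∈ Hull C Γ := by
  classical
  induction S using Finset.induction_on with
  | empty => rwa [Finset.sum_empty, smul_zero, zero_add]
  | insert a S ha ih =>
    rw [Finset.sum_insert ha, smul_add, add_assoc]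
    exact h.hul.add _ (h.hul.smul _ (hq a) c hc) _ ih

/-- uniform comparison of `x = c p + y` with its image -/
theorem comp_unif (h : CC C Γ) {g : GL (Fin n) ℝ} (hg : g ∈ Γ) {s : ℝ} (hs : 0 < s) {m : ℕ}
    (lam : Fin m → ℝ) (q : Fin m → V n) (hl : ∀ i, 0 < lam i)
    (hq : ∀ i, Eg C Γ g s (lam i) (q i)) {y : V n} (hy : y ∈ C) :
    ∃ M : ℝ, ∀ c : ℝ, 0 ≤ c → M • (c • ∑ i, q i + y) - act g (c • ∑ i, q i + y) ∈ closure C ∧
      M • act g (c • ∑ i, q i + y) - (c • ∑ i, q i + y) ∈ closure C := by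
  have hqc : ∀ i, q i ∈ closure C := fun i => h.hul.lamCl _ (hq i).1
  have hqa : ∀ i, act g (q i) = (lam i / s) • q i := by
    intro i
    have h2 := (hq i).2
    have h3 : act g (q i) = s⁻¹ • (s • act g (q i)) := by
      rw [smul_smul, inv_mul_cancel₀ hs.ne', one_smul]
    rw [h3, h2, smul_smul, div_eq_inv_mul]
  obtain ⟨M3, hM3, h3⟩ := h.absorb hy (act g y)
  obtain ⟨M4, hM4, h4⟩ := h.absorb ((h.act_mem_iff hg).2 hy) y
  have hyc : y ∈ closure C := subset_closure hy
  have hgyc : act g y ∈ closure C := h.act_cl hg hyc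
  set M1 : ℝ := ∑ i, lam i / s with hM1
  set M2 : ℝ := ∑ i, s / lam i with hM2
  have hM1i : ∀ i, lam i / s ≤ M1 := fun i =>
    Finset.single_le_sum (f := fun i => lam i / s) (fun j _ => (div_pos (hl j) hs).le)
      (Finset.mem_univ i)
  have hM2i : ∀ i, s / lam i ≤ M2 := fun i =>
    Finset.single_le_sum (f := fun i => s / lam i) (fun j _ => (div_pos hs (hl j)).le)
      (Finset.mem_univ i)
  have hM10 : 0 ≤ M1 := Finset.sum_nonneg fun j _ => (div_pos (hl j) hs).le
  have hM20 : 0 ≤ M2 := Finset.sum_nonneg fun j _ => (div_pos hs (hl j)).le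
  refine ⟨M1 + M2 + M3 + M4, fun c hc => ⟨?_, ?_⟩⟩
  · have e : (M1 + M2 + M3 + M4) • (c • ∑ i, q i + y) - act g (c • ∑ i, q i + y) =
        c • (∑ i, (M1 + M2 + M3 + M4 - lam i / s) • q i) +
          ((M1 + M2 + M3 + M4) • y - act g y) := by
      rw [CC.act_add, CC.act_smul, CC.act_sum, Finset.sum_congr rfl (fun i _ => hqa i)]
      have e2 : ∑ i, (M1 + M2 + M3 + M4 - lam i / s) • q i =
          (M1 + M2 + M3 + M4) • ∑ i, q i - ∑ i, (lam i / s) • q i := by
        rw [Finset.smul_sum, ← Finset.sum_sub_distrib]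
        exact Finset.sum_congr rfl (fun i _ => sub_smul _ _ _)
      rw [e2, smul_sub, smul_add, smul_comm c]
      abel
    rw [e]
    refine h.cl_add (h.cl_smul (h.cl_sum fun i _ => h.cl_smul (hqc i) ?_) hc) ?_
    · have := hM1i i
      linarith
    · exact mono_c h.toPCone hyc (by linarith) (subset_closure h3)
  · have e : (M1 + M2 + M3 + M4) • act g (c • ∑ i, q i + y) - (c • ∑ i, q i + y) =
        c • (∑ i, ((M1 + M2 + M3 + M4) * (lam i / s) - 1) • q i) +
          ((M1 + M2 + M3 + M4) • act g y - y) := by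
      rw [CC.act_add, CC.act_smul, CC.act_sum, Finset.sum_congr rfl (fun i _ => hqa i)]
      have e2 : ∑ i, ((M1 + M2 + M3 + M4) * (lam i / s) - 1) • q i =
          (M1 + M2 + M3 + M4) • ∑ i, (lam i / s) • q i - ∑ i, q i := by
        rw [Finset.smul_sum, ← Finset.sum_sub_distrib]
        refine Finset.sum_congr rfl (fun i _ => ?_)
        rw [sub_smul, one_smul, smul_smul]
      rw [e2, smul_sub, smul_add, smul_comm c]
      abel
    rw [e]
    refine h.cl_add (h.cl_smul (h.cl_sum fun i _ => h.cl_smul (hqc i) ?_) hc) ?_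
    · have h5 : s / lam i ≤ M1 + M2 + M3 + M4 := by
        have := hM2i i
        linarith
      have h6 : (s / lam i) * (lam i / s) = 1 := by
        have := (hl i).ne'
        field_simp
      have h7 := mul_le_mul_of_nonneg_right h5 (div_pos (hl i) hs).le
      linarith
    · exact mono_c h.toPCone hgyc (by linarith) (subset_closure h4)

theorem core (h : CC C Γ) (hPfe : PfeStmt) (hSbg : SbgStmt) (hLop : LopStmt)
    {g : GL (Fin n) ℝ} (hg : g ∈ Γ) {s : ℝ} (hs : 0 < s)
    (hno : ∀ v ∈ C, ∀ c : ℝ, s • act g v ≠ c • v) {m : ℕ} (lam : Fin m → ℝ) (q : Fin m → V n)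
    (c : Fin m → ℝ) (hl : ∀ i, 0 < lam i) (hq : ∀ i, Eg C Γ g s (lam i) (q i))
    (hc : ∀ i, 0 < c i)
    (hmax : ∀ i v, Eg C Γ g s (lam i) v → (c i * ‖v‖) • q i - v ∈ closure C)
    (hall : ∀ (l : ℝ) (v : V n), Eg C Γ g s l v → ∃ i, lam i = l) : ∑ i, q i ∈ C := by
  by_contra hp
  set p : V n := ∑ i, q i with hpdef
  have hqc : ∀ i, q i ∈ closure C := fun i => h.hul.lamCl _ (hq i).1
  have hpc : p ∈ closure C := h.cl_sum fun i _ => hqc i
  obtain ⟨y, hyC, hyH⟩ := h.core
  have hyc : y ∈ closure C := subset_closure hyC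
  obtain ⟨M, hM⟩ := comp_unif h hg hs lam q hl hq hyC
  set x : ℕ → V n := fun j => ((j : ℝ) + 1) • p + y with hx
  have hxC : ∀ j, x j ∈ C := fun j => h.cl_add' (h.cl_smul hpc (by positivity)) hyC
  have hxH : ∀ j, x j ∈ Hull C Γ := fun j =>
    sum_hull h q (fun i => h.hul.lamHull _ (hq i).1) hyH (by positivity) Finset.univ
  obtain ⟨φ, γ, t, xi, hφ, hγ, hγg, ht, hxi, hlim⟩ := hSbg n C Γ h g hg x M hxC hxH
    (fun j => (hM ((j : ℝ) + 1) (by positivity)).1)
    (fun j => (hM ((j : ℝ) + 1) (by positivity)).2)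
  obtain ⟨ψ, T, hψ, hT⟩ := hLop n C Γ h ⊤ (fun j => x (φ j)) γ t xi hγ ht hlim (by
    intro u _
    obtain ⟨M', hM', ha, hb⟩ := absorb_two h.toPCone hyC u
    refine ⟨M', fun j => ⟨?_, ?_⟩⟩
    · have e : M' • x (φ j) - u = M' • (((φ j : ℝ) + 1) • p) + (M' • y - u) := by
        rw [hx]
        dsimp only
        rw [smul_add]
        abel
      rw [e]
      exact h.cl_add (h.cl_smul (h.cl_smul hpc (by positivity)) hM'.le) (subset_closure ha)
    · have e : M' • x (φ j) + u = M' • (((φ j : ℝ) + 1) • p) + (M' • y + u) := by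
        rw [hx]
        dsimp only
        rw [smul_add]
        abel
      rw [e]
      exact h.cl_add (h.cl_smul (h.cl_smul hpc (by positivity)) hM'.le) (subset_closure hb))
  -- notation
  set G : ℕ → V n → V n := fun j u => t (ψ j) • act (γ (ψ j)) u with hG
  set κ : ℕ → ℝ := fun j => (φ (ψ j) : ℝ) + 1 with hκ
  have hκpos : ∀ j, 0 < κ j := fun j => by
    rw [hκ]
    positivity
  have hκinf : Tendsto κ atTop atTop := by
    rw [hκ]
    exact tendsto_atTop_add_const_right _ _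
      (tendsto_natCast_atTop_atTop.comp (hφ.tendsto_atTop.comp hψ.tendsto_atTop))
  have hT' : ∀ u, Tendsto (fun j => G j u) atTop (𝓝 (T u)) := fun u => hT u Submodule.mem_top
  have hGx : Tendsto (fun j => G j (x (φ (ψ j)))) atTop (𝓝 xi) := hlim.comp hψ.tendsto_atTop
  have hGadd : ∀ j u v, G j (u + v) = G j u + G j v := fun j u v => by
    rw [hG]
    dsimp only
    rw [CC.act_add, smul_add]
  have hGsub : ∀ j u v, G j (u - v) = G j u - G j v := fun j u v => by
    rw [hG]
    dsimp only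
    rw [CC.act_sub, smul_sub]
  have hGsmul : ∀ j (a : ℝ) u, G j (a • u) = a • G j u := fun j a u => by
    rw [hG]
    dsimp only
    rw [CC.act_smul, smul_comm]
  have hGC : ∀ j u, G j u ∈ C ↔ u ∈ C := fun j u => h.sact_mem_iff (hγ _) (ht _)
  have hGcl : ∀ j u, G j u ∈ closure C ↔ u ∈ closure C := fun j u =>
    h.sact_cl_iff (hγ _) (ht _)
  have hp' : Tendsto (fun j => κ j • G j p) atTop (𝓝 (xi - T y)) := by
    have e : (fun j => κ j • G j p) = fun j => G j (x (φ (ψ j))) - G j y := by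
      funext j
      rw [← hGsub, ← hGsmul]
      congr 1
      rw [hx, hκ]
      dsimp only
      rw [add_sub_cancel_right]
    rw [e]
    exact hGx.sub (hT' y)
  have hp'C : xi - T y ∉ C := by
    intro hmem
    obtain ⟨j, hj⟩ := (hp'.eventually (h.isOpen.mem_nhds hmem)).exists
    have hj' : κ j • G j p ∈ C := hj
    rw [h.smul_iff (hκpos j), hGC] at hj'
    exact hp hj'
  have hTy : T y ≠ 0 := by
    intro h0
    rw [h0, sub_zero] at hp'C
    exact hp'C hxi
  have hTcomm : ∀ u, s • act g (T u) = T (s • act g u) := by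
    intro u
    have l1 : Tendsto (fun j => s • act g (G j u)) atTop (𝓝 (s • act g (T u))) :=
      (((CC.act_continuous g).tendsto _).comp (hT' u)).const_smul s
    have l2 := hT' (s • act g u)
    have e : (fun j => s • act g (G j u)) = fun j => G j (s • act g u) := by
      funext j
      rw [hG]
      dsimp only
      rw [CC.act_smul, ← CC.act_mul, ← hγg, CC.act_mul, CC.act_smul, smul_comm]
    rw [e] at l1
    exact tendsto_nhds_unique l1 l2
  -- the cone `D`
  set D : Set (V n) := closure (Hull C Γ) ∩ Set.range T with hD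
  have hHc : closure (Hull C Γ) ⊆ closure C :=
    closure_minimal (fun z hz => h.hul.hullCl z hz) isClosed_closure
  have h0H : (0 : V n) ∈ closure (Hull C Γ) := by
    have hl0 : Tendsto (fun j : ℕ => (1 / ((j : ℝ) + 1)) • y) atTop (𝓝 ((0 : ℝ) • y)) :=
      tendsto_one_div_add_atTop_nhds_zero_nat.smul_const y
    rw [zero_smul] at hl0
    exact mem_closure_of_tendsto hl0
      (Eventually.of_forall fun j => h.hul.smul y hyH _ (by positivity))
  have hDcl : IsClosed D := by
    have h1 : IsClosed ((LinearMap.range T : Submodule ℝ (V n)) : Set (V n)) :=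
      Submodule.closed_of_finiteDimensional _
    have h2 : ((LinearMap.range T : Submodule ℝ (V n)) : Set (V n)) = Set.range T := by
      ext z
      simp
    rw [h2] at h1
    exact isClosed_closure.inter h1
  obtain ⟨v, hvD, hv0, l, hlpos, hvl⟩ := hPfe n C h.toPCone D (sA s g) hDcl
    (fun z hz => hHc hz.1)
    (by
      rintro a ⟨ha1, a', rfl⟩ b ⟨hb1, b', rfl⟩
      refine ⟨map_mem_closure₂ continuous_add ha1 hb1 (fun u hu w hw => h.hul.add u hu w hw),
        a' + b', ?_⟩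
      rw [map_add])
    (by
      rintro a ⟨ha1, a', rfl⟩ r hr
      refine ⟨?_, r • a', ?_⟩
      · rcases hr.eq_or_lt with h0 | h0
        · rw [← h0, zero_smul]
          exact h0H
        · exact map_mem_closure (continuous_const_smul r) ha1
            (fun u hu => h.hul.smul u hu r h0)
      · rw [map_smul])
    (by
      rintro a ⟨ha1, a', rfl⟩
      refine ⟨?_, s • act g a', ?_⟩
      · have hcont : Continuous (fun u : V n => s • act g u) :=
          (CC.act_continuous g).const_smul s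
        exact map_mem_closure hcont ha1
          (fun u hu => h.hul.smul _ (h.hul.act u hu g hg) s hs)
      · rw [sA_apply, hTcomm])
    (by
      intro a _ h0
      rw [sA_apply] at h0
      rcases smul_eq_zero.1 h0 with h8 | h8
      · exact absurd h8 hs.ne'
      · exact CC.act_injective g (h8.trans (CC.act_zero g).symm))
    ⟨T y, ⟨mem_closure_of_tendsto (hT' y) (Eventually.of_forall fun j =>
      h.hul.smul _ (h.hul.act y hyH _ (hγ _)) _ (ht _)), y, rfl⟩, hTy⟩
  rw [sA_apply] at hvl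
  have hvC : v ∉ C := fun hv => hno v hv l hvl
  obtain ⟨hvH, u0, hu0⟩ := hvD
  have hvcl : v ∈ closure C := hHc hvH
  have hvL : v ∈ LamC C Γ := by
    obtain ⟨w, hw1, hw2⟩ := mem_closure_iff_seq_limit.1 hvH
    exact H37.cloF n C Γ h w v hw1 hw2 hvC hv0
  obtain ⟨i, hi⟩ := hall l v ⟨hvL, hvl⟩
  -- the vectors `v_j`
  set vj : ℕ → V n := fun j => (t (ψ j))⁻¹ • act (γ (ψ j))⁻¹ v with hvj
  have hGv : ∀ j, G j (vj j) = v := fun j => by
    rw [hG, hvj]
    dsimp only
    rw [CC.act_smul, smul_smul, mul_inv_cancel₀ (ht _).ne', one_smul, CC.act_act_inv]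
  have hvjcl : ∀ j, vj j ∈ closure C := fun j => by
    rw [← hGcl j, hGv]
    exact hvcl
  have hvjE : ∀ j, Eg C Γ g s (lam i) (vj j) := fun j => by
    have hcomm : (γ (ψ j))⁻¹ * g = g * (γ (ψ j))⁻¹ := by
      rw [inv_mul_eq_iff_eq_mul, ← mul_assoc, hγg, mul_assoc, mul_inv_cancel, mul_one]
    exact eg_comm h (Γ.inv_mem (hγ _)) hcomm (inv_pos.2 (ht _)) (by rw [hi]; exact ⟨hvL, hvl⟩)
  obtain ⟨M', hM', hM'y⟩ := h.absorb hyC u0
  obtain ⟨B, hB, hBn⟩ := h.normal
  have ha0 : Tendsto (fun j => (κ j)⁻¹ * ‖vj j‖) atTop (𝓝 0) := by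
    rw [Metric.tendsto_atTop']
    intro δ hδ
    set ε : ℝ := δ / (4 * (B * ‖p‖ + 1)) with hε
    have hBp : 0 ≤ B * ‖p‖ := by positivity
    have hεpos : 0 < ε := by positivity
    have hεB : B * (2 * ε * ‖p‖) ≤ δ / 2 := by
      have e1 : ε * (4 * (B * ‖p‖ + 1)) = δ := by
        rw [hε]
        field_simp
      nlinarith
    have l1 : ∀ᶠ j in atTop, ε • xi - (v - G j u0) ∈ C := by
      have l2 : Tendsto (fun j => ε • xi - (v - G j u0)) atTop (𝓝 (ε • xi - (v - T u0))) :=
        tendsto_const_nhds.sub (tendsto_const_nhds.sub (hT' u0))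
      rw [hu0, sub_self, sub_zero] at l2
      exact l2.eventually (h.isOpen.mem_nhds (h.smul _ hxi ε hεpos))
    have l3 : ∀ᶠ j in atTop, (2 : ℝ) • G j (x (φ (ψ j))) - xi ∈ C := by
      filter_upwards [h.squeeze hxi hGx (M := 2) (by norm_num)] with j hj
      exact hj.2
    have l4 : ∀ᶠ j in atTop, B * ((κ j)⁻¹ * ((M' + 2 * ε) * ‖y‖)) < δ / 2 := by
      have l5 : Tendsto (fun j => B * ((κ j)⁻¹ * ((M' + 2 * ε) * ‖y‖))) atTop
          (𝓝 (B * (0 * ((M' + 2 * ε) * ‖y‖)))) :=
        ((tendsto_inv_atTop_zero.comp hκinf).mul_const _).const_mul _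
      rw [zero_mul, mul_zero] at l5
      exact l5.eventually (gt_mem_nhds (by positivity))
    obtain ⟨N, hN⟩ := eventually_atTop.1 (l1.and (l3.and l4))
    refine ⟨N, fun j hj => ?_⟩
    obtain ⟨b1, b3, b4⟩ := hN j hj.le
    have b5 : (M' + 2 * ε) • y + (2 * ε * κ j) • p - vj j ∈ closure C := by
      have e1 : (M' + 2 * ε) • y + (2 * ε * κ j) • p - vj j =
          (u0 + (2 * ε) • x (φ (ψ j)) - vj j) + (M' • y - u0) := by
        rw [hx, hκ]
        dsimp only
        rw [add_smul, smul_add, smul_smul]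
        abel
      rw [e1]
      refine h.cl_add ?_ (subset_closure hM'y)
      rw [← hGcl j, hGsub, hGadd, hGsmul, hGv]
      have e2 : G j u0 + (2 * ε) • G j (x (φ (ψ j))) - v =
          (ε • xi - (v - G j u0)) + ε • ((2 : ℝ) • G j (x (φ (ψ j))) - xi) := by
        generalize G j (x (φ (ψ j))) = w
        have e3 : ε • ((2 : ℝ) • w) = (2 * ε) • w := by rw [smul_smul, mul_comm]
        rw [smul_sub, e3]
        abel
      rw [e2]
      exact h.cl_add (subset_closure b1) (h.cl_smul (subset_closure b3) hεpos.le)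
    have b6 := hBn (vj j) _ (hvjcl j) b5
    have b7 : ‖(M' + 2 * ε) • y + (2 * ε * κ j) • p‖ ≤
        (M' + 2 * ε) * ‖y‖ + 2 * ε * κ j * ‖p‖ := by
      refine (norm_add_le _ _).trans ?_
      rw [norm_smul, norm_smul, Real.norm_of_nonneg (by positivity),
        Real.norm_of_nonneg (by have := hκpos j; positivity)]
    have hk := hκpos j
    rw [dist_zero_right, Real.norm_of_nonneg (by positivity)]
    have b8 : (κ j)⁻¹ * ‖vj j‖ ≤ B * ((κ j)⁻¹ * ((M' + 2 * ε) * ‖y‖)) + B * (2 * ε * ‖p‖) := by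
      have b9 : ‖vj j‖ ≤ B * ((M' + 2 * ε) * ‖y‖ + 2 * ε * κ j * ‖p‖) :=
        b6.trans (mul_le_mul_of_nonneg_left b7 hB.le)
      have b10 := mul_le_mul_of_nonneg_left b9 (inv_pos.2 hk).le
      have e3 : (κ j)⁻¹ * (B * ((M' + 2 * ε) * ‖y‖ + 2 * ε * κ j * ‖p‖)) =
          B * ((κ j)⁻¹ * ((M' + 2 * ε) * ‖y‖)) + B * (2 * ε * ‖p‖) := by
        field_simp
      rw [e3] at b10
      exact b10
    linarith
  -- conclusion
  have hfin : Tendsto (fun j => (c i * ((κ j)⁻¹ * ‖vj j‖)) • (κ j • G j p) - v) atTop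
      (𝓝 ((c i * 0) • (xi - T y) - v)) :=
    ((ha0.const_mul (c i)).smul hp').sub tendsto_const_nhds
  rw [mul_zero, zero_smul, zero_sub] at hfin
  have hneg : -v ∈ closure C := by
    refine isClosed_closure.mem_of_tendsto hfin (Eventually.of_forall fun j => ?_)
    have hk := (hκpos j).ne'
    have e1 : (c i * ((κ j)⁻¹ * ‖vj j‖)) • (κ j • G j p) - v =
        G j ((c i * ‖vj j‖) • p - vj j) := by
      rw [hGsub, hGsmul, hGv, smul_smul]
      congr 2
      field_simp
    rw [e1, hGcl]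
    have e2 : (c i * ‖vj j‖) • p - vj j = (c i * ‖vj j‖) • (p - q i) +
        ((c i * ‖vj j‖) • q i - vj j) := by
      rw [smul_sub]
      abel
    rw [e2]
    refine h.cl_add (h.cl_smul ?_ (mul_nonneg (hc i).le (norm_nonneg _))) (hmax i _ (hvjE j))
    classical
    rw [hpdef, ← Finset.add_sum_erase Finset.univ q (Finset.mem_univ i), add_sub_cancel_left]
    exact h.cl_sum fun k _ => hqc k
  exact hv0 (h.salient v hvcl hneg)

theorem sua (h1 : PfeStmt) (h2 : PlmStmt) (h3 : SbgStmt) (h4 : LopStmt) : SuaStmt := by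
  intro n C Γ h g hg s hs hno
  classical
  set L := (eg_fin h g s).toFinset with hL
  have hmemL : ∀ l : ℝ, l ∈ L ↔ ∃ v, Eg C Γ g s l v := fun l => by
    rw [hL, Set.Finite.mem_toFinset]
    rfl
  set e := L.equivFin.symm with he
  have hex : ∀ i : Fin L.card, ∃ v, Eg C Γ g s (e i : ℝ) v := fun i => (hmemL _).1 (e i).2
  have hplm := fun i : Fin L.card => h2 n C Γ h g hg s hs hno (e i : ℝ) (hex i)
  choose q c hq hc hmax using hplm
  refine ⟨L.card, fun i => (e i : ℝ), q, ?_, ?_, ?_, ?_⟩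
  · intro i j hij
    exact e.injective (Subtype.ext hij)
  · intro i
    exact ⟨eg_pos h hg hs (hq i), hq i⟩
  · refine core h h1 h3 h4 hg hs hno (fun i => (e i : ℝ)) q c (fun i => eg_pos h hg hs (hq i)) hq
      hc hmax ?_
    intro l v hv
    refine ⟨L.equivFin ⟨l, (hmemL l).2 ⟨v, hv⟩⟩, ?_⟩
    rw [he]
    simp
  · intro i v hv
    refine ⟨c i * ‖v‖, mul_pos (hc i) (norm_pos_iff.2 (h.hul.lamNe v hv.1)), hmax i v hv⟩

end Pool.Agent.VMX.H43
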